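import Pool.Agent.Y714.KF.Stm

set_option autoImplicit false

/-! Project KF (helper714), job KF-LOC: the local conditions together say reduced. -/

namespace Pool.Agent.Y319.KF

open NumberField FractionalIdeal Module
open scoped nonZeroDivisors

open Pool.Agent.Y714.KF

variable {K : Type} [Field K] [NumberField K]

/-- a nonzero prime ideal contains a prime number -/
theorem exists_prime_mem {q : Ideal (𝓞 K)} (hq : q.IsPrime) (h0 : q ≠ ⊥) :
    ∃ p : ℕ, p.Prime ∧ (p : 𝓞 K) ∈ q := by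
  have := hq
  obtain ⟨c, hc⟩ := CharP.exists (𝓞 K ⧸ q)
  have := hc
  rcases CharP.char_is_prime_or_zero (𝓞 K ⧸ q) c with h | h
  · refine ⟨c, h, ?_⟩
    rw [← Ideal.Quotient.eq_zero_iff_mem, map_natCast]
    exact CharP.cast_eq_zero _ c
  · exfalso
    subst h
    have h1 : ((Ideal.absNorm q : ℕ) : 𝓞 K) ∈ q := Ideal.absNorm_mem q
    rw [← Ideal.Quotient.eq_zero_iff_mem, map_natCast, CharP.cast_eq_zero_iff (𝓞 K ⧸ q) 0,
      zero_dvd_iff, Ideal.absNorm_eq_zero_iff] at h1
    exact h0 h1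

theorem loc : S_LOC K := by
  intro _ I P hP hI
  have hI0 : (I : FI K) ≠ 0 := I.ne_zero
  have hc0 : ct P ≠ 0 := ct_ne hP.fst
  constructor
  · intro h
    have hct : ct P = I := by
      by_contra hne
      obtain ⟨L, hL⟩ := exists_ideal (inv_mul_le_one hI0 hI)
      have hcL : ct P = (L : FI K) * I := by
        rw [hL, mul_comm (I : FI K)⁻¹, mul_assoc, inv_mul_cancel₀ hI0, mul_one]
      have hLt : L ≠ ⊤ := by
        rintro rfl
        apply hne
        rw [hcL, coeIdeal_top, one_mul]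
      have hL0 : L ≠ ⊥ := by
        rintro rfl
        apply hc0
        rw [hcL, coeIdeal_bot, zero_mul]
      obtain ⟨q, hqm, hLq⟩ := Ideal.exists_le_maximal L hLt
      obtain ⟨p, hp, hpq⟩ := exists_prime_mem hqm.isPrime (fun h0 => hL0 (le_bot_iff.1 (h0 ▸ hLq)))
      refine (h p hp).1 ⟨q, hqm.isPrime, hpq, fun x hx => ?_⟩
      have h1 : x ∈ ct P := Lt_mem le_rfl hx
      rw [hcL] at h1
      have h2 : (L : FI K) * I ≤ (q : FI K) * I := by
        have := coeIdeal_le_coeIdeal K |>.2 hLq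
        gcongr
      exact h2 h1
    refine ⟨hct, ?_⟩
    intro p hp x hx hx'
    have h1 : sp (p : K) * ct P ≤ sp (p : K) * ct P + sp x := by
      rw [← sup_eq_add]; exact le_sup_left
    have h2 : sp (p : K) * ct P + sp x ≤ ct P := by
      rw [← sup_eq_add]
      refine sup_le ?_ (sp_le.2 (Lt_mem le_rfl hx))
      calc sp (p : K) * ct P ≤ 1 * ct P := by
            gcongr; exact sp_natCast_le_one p
        _ = ct P := one_mul _
    obtain ⟨m, hm, hm'⟩ := exists_pow hp hc0 h1 h2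
    have h3 : ¬ finrank ℚ K ≤ 2 * m := by
      intro h3
      refine (h p hp).2 m hm h3 ⟨x, hx, hx', ?_⟩
      rw [← hct]
      exact hm'
    rw [hm', mul_pow, ← pow_mul]
    have h4 := nm_pos hc0
    have h5 : (1 : ℚ) < p := by exact_mod_cast hp.one_lt
    have h6 : (p : ℚ) ^ (m * 2) < (p : ℚ) ^ finrank ℚ K := pow_lt_pow_right₀ h5 (by omega)
    have h7 : 0 < nm (ct P) ^ 2 := by positivity
    exact mul_lt_mul_of_pos_right h6 h7
  · rintro ⟨hct, hred⟩ p hp
    refine ⟨?_, ?_⟩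
    · rintro ⟨q, hq, -, hall⟩
      have h1 : ct P ≤ (q : FI K) * I := ct_le.2 ⟨hall _ (fst_mem_Lt P), hall _ (snd_mem_Lt P)⟩
      rw [hct] at h1
      have h2 : (1 : FI K) ≤ (q : FI K) := by
        calc (1 : FI K) = I * (I : FI K)⁻¹ := (mul_inv_cancel₀ hI0).symm
          _ ≤ ((q : FI K) * I) * (I : FI K)⁻¹ := by gcongr
          _ = q := by rw [mul_assoc, mul_inv_cancel₀ hI0, mul_one]
      have h3 : (⊤ : Ideal (𝓞 K)) ≤ q := by
        rw [← coeIdeal_le_coeIdeal K, coeIdeal_top]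
        exact h2
      exact hq.ne_top (top_le_iff.1 h3)
    · rintro m - hnm ⟨x, hx, hx', hxm⟩
      have h1 := hred p hp x hx hx'
      rw [hct, hxm, mul_pow, ← pow_mul] at h1
      have h4 := nm_pos hI0
      have h5 : (1 : ℚ) < p := by exact_mod_cast hp.one_lt
      have h6 : (p : ℚ) ^ finrank ℚ K ≤ (p : ℚ) ^ (m * 2) := pow_le_pow_right₀ h5.le (by omega)
      have h7 : 0 < nm (I : FI K) ^ 2 := by positivity
      exact absurd h1 (not_lt.2 (mul_le_mul_of_nonneg_right h6 h7.le))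

end Pool.Agent.Y319.KF
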